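import Mathlib
import Pool.Agent.H204R3.SP.Lie

/-!
# Polarized Hodge structures and Hodge classes: definitions
-/

namespace Pool.Agent.K1H15.HG

open TensorProduct

noncomputable section

/-- Complex conjugation on the complexification `ℂ ⊗ W` of a rational vector space `W`. -/
def conj (W : Type) [AddCommGroup W] [Module ℚ W] : (ℂ ⊗[ℚ] W) →ₗ[ℚ] (ℂ ⊗[ℚ] W) :=
  TensorProduct.map (Complex.conjAe.toLinearMap.restrictScalars ℚ) LinearMap.id

/-- A polarized rational Hodge structure of weight `w` on `W`. The subspace `part p` of `ℂ ⊗ W` is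
`W^{p, w - p}`, and `form` is the polarization, with extension `formC` to `ℂ ⊗ W`: it is
`(-1) ^ w`-symmetric, pairs `W^{p, w - p}` with `W^{w - p, p}` only, and the real number
`i^{2p - w} form(x, x̄)` is positive for every nonzero `x` in `W^{p, w - p}`. -/
structure PolarizedHodge (W : Type) [AddCommGroup W] [Module ℚ W] (w : ℤ) where
  part : ℤ → Submodule ℂ (ℂ ⊗[ℚ] W)
  internal : DirectSum.IsInternal part
  conj_mem : ∀ p, ∀ x ∈ part p, conj W x ∈ part (w - p)
  form : W →ₗ[ℚ] W →ₗ[ℚ] ℚ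
  formC : (ℂ ⊗[ℚ] W) →ₗ[ℂ] (ℂ ⊗[ℚ] W) →ₗ[ℂ] ℂ
  formC_one : ∀ u v, formC ((1 : ℂ) ⊗ₜ[ℚ] u) ((1 : ℂ) ⊗ₜ[ℚ] v) = ((form u v : ℚ) : ℂ)
  symm : ∀ u v, form v u = (-1) ^ w * form u v
  orth : ∀ p q, p + q ≠ w → ∀ x ∈ part p, ∀ y ∈ part q, formC x y = 0
  pos : ∀ p, ∀ x ∈ part p, x ≠ 0 → 0 < (Complex.I ^ (2 * p - w) * formC x (conj W x)).re

/-- The rational multilinear forms on `W` in `2m` variables, indexed by `Fin m × Fin 2`. -/
abbrev Form (W : Type) [AddCommGroup W] [Module ℚ W] (m : ℕ) : Type :=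
  MultilinearMap ℚ (fun _ : Fin m × Fin 2 => W) ℚ

variable {W : Type} [AddCommGroup W] [Module ℚ W] {w : ℤ} (H : PolarizedHodge W w)

/-- **Hodge classes.** A rational form `φ` on `W` in `2m` variables is a Hodge class if its complex
extension vanishes on the product of the spaces `W^{p_l, w - p_l}` unless the sum of the `p_l` is
`m w`, which is then also the sum of the `w - p_l`. -/
def PolarizedHodge.IsHodge (m : ℕ) (φ : Form W m) : Prop :=
  ∃ Φ : MultilinearMap ℂ (fun _ : Fin m × Fin 2 => ℂ ⊗[ℚ] W) ℂ,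
    (∀ v, Φ (fun l => (1 : ℂ) ⊗ₜ[ℚ] v l) = ((φ v : ℚ) : ℂ)) ∧
    ∀ (p : Fin m × Fin 2 → ℤ) (x : Fin m × Fin 2 → ℂ ⊗[ℚ] W), (∀ l, x l ∈ H.part (p l)) →
      ∑ l, p l ≠ m * w → Φ x = 0

/-- An endomorphism of the Hodge structure. -/
def PolarizedHodge.IsHodgeEndo (P : Module.End ℚ W) : Prop :=
  ∀ p, ∀ x ∈ H.part p, P.baseChange ℂ x ∈ H.part p

/-- The space of the elements of the centre of the algebra of the Hodge endomorphisms which are skew
for the polarization. It is zero if this centre is totally real, that is, if there is no factor of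
type IV. -/
def PolarizedHodge.centralSkew : Submodule ℚ (Module.End ℚ W) :=
  Submodule.span ℚ {Z | H.IsHodgeEndo Z ∧ (∀ P, H.IsHodgeEndo P → P * Z = Z * P) ∧
    ∀ u v, H.form (Z u) v + H.form u (Z v) = 0}

/-- A rational form is a Tate class over `k` (the `ℓ`-adic numbers): its extension to `k ⊗ W` is
multiplied by `χ ^ m` under a subgroup of finite index of the group `Γ`. -/
def IsTateOver {k : Type} [Field k] [CharZero k] {Γ : Type} [Group Γ]
    (ρ : Representation k Γ (k ⊗[ℚ] W)) (χ : Γ →* k) {m : ℕ} (φ : Form W m) : Prop :=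
  ∃ f : MultilinearMap k (fun _ : Fin m × Fin 2 => k ⊗[ℚ] W) k,
    (∀ v, f (fun l => (1 : k) ⊗ₜ[ℚ] v l) = ((φ v : ℚ) : k)) ∧
    ∃ Δ : Subgroup Γ, Δ.FiniteIndex ∧ ∀ s ∈ Δ, ∀ v, f (fun l => ρ s (v l)) = χ s ^ m * f v

end

end Pool.Agent.K1H15.HG
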