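import Mathlib
import Pool.Agent.K1H15.HG.Defs

/-!
# Diagonal operators for a grading
-/

set_option linter.unusedSectionVars false

namespace Pool.Agent.K1H15.HG

open Module Finset Function Pool.Agent.H204R3.SP

noncomputable section

variable {E : Type} [AddCommGroup E] [Module ℂ E] {part : ℤ → Submodule ℂ E}
  (hi : DirectSum.IsInternal part)

/-- The operator which is the scalar `f p` on the subspace of degree `p`. -/
def diag (f : ℤ → ℂ) : End ℂ E :=
  (DirectSum.toModule ℂ ℤ E fun p => f p • (part p).subtype) ∘ₗ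
    (LinearEquiv.ofBijective (DirectSum.coeLinearMap part) hi).symm.toLinearMap

theorem diag_apply (f : ℤ → ℂ) {p : ℤ} {x : E} (hx : x ∈ part p) : diag hi f x = f p • x := by
  have h1 : (LinearEquiv.ofBijective (DirectSum.coeLinearMap part) hi).symm x =
      DirectSum.lof ℂ ℤ (fun p => part p) p ⟨x, hx⟩ := by
    rw [LinearEquiv.symm_apply_eq]
    change x = DirectSum.coeLinearMap part _
    rw [DirectSum.coeLinearMap_lof]
  change DirectSum.toModule ℂ ℤ E _
    ((LinearEquiv.ofBijective (DirectSum.coeLinearMap part) hi).symm x) = _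
  rw [h1, DirectSum.toModule_lof]
  rfl

include hi in
/-- Induction over the parts. -/
theorem parts_induction {C : E → Prop} (x : E) (h : ∀ p, ∀ x ∈ part p, C x) (h0 : C 0)
    (ha : ∀ x y, C x → C y → C (x + y)) : C x := by
  have h1 : x ∈ ⨆ p, part p := by
    rw [hi.submodule_iSup_eq_top]
    exact Submodule.mem_top
  exact Submodule.iSup_induction (motive := C) part h1 h h0 ha

include hi in
theorem ext_parts {F : Type} [AddCommGroup F] [Module ℂ F] {A B : E →ₗ[ℂ] F}
    (h : ∀ p, ∀ x ∈ part p, A x = B x) : A = B := by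
  refine LinearMap.ext fun x => ?_
  refine parts_induction (C := fun x => A x = B x) hi x h (by rw [map_zero, map_zero])
    fun x y hx hy => ?_
  rw [map_add, map_add, hx, hy]

theorem diag_mul (f g : ℤ → ℂ) : diag hi f * diag hi g = diag hi fun p => f p * g p := by
  refine ext_parts hi fun p x hx => ?_
  rw [End.mul_apply, diag_apply hi g hx, map_smul, diag_apply hi f hx,
    diag_apply hi _ hx, smul_smul, mul_comm]

theorem diag_one : diag hi (fun _ => 1) = 1 := by
  refine ext_parts hi fun p x hx => ?_
  rw [diag_apply hi _ hx, one_smul, End.one_apply]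

variable [FiniteDimensional ℂ E] {S : Type} [Fintype S] [DecidableEq S]

include hi in
/-- Two multilinear maps agree if they agree on homogeneous vectors. -/
theorem multi_ext {Φ Ψ : MultilinearMap ℂ (fun _ : S => E) ℂ}
    (h : ∀ (p : S → ℤ) (x : S → E), (∀ l, x l ∈ part (p l)) → Φ x = Ψ x) : Φ = Ψ := by
  let b : ∀ p : ℤ, Basis (Fin (finrank ℂ (part p))) ℂ (part p) := fun p => Module.finBasis ℂ _
  let B := hi.collectedBasis b
  have hB : ∀ i, B i ∈ part i.1 := hi.collectedBasis_mem b
  exact Module.Basis.ext_multilinear (fun _ => B) fun r => h (fun l => (r l).1) _ fun l => hB (r l)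

/-- A form which vanishes on homogeneous vectors unless the sum of the degrees is `N` is killed by
the corresponding operator. -/
theorem kills_of_type {Φ : MultilinearMap ℂ (fun _ : S => E) ℂ} {N : ℤ} {f : ℤ → ℂ}
    (hf : ∀ p : S → ℤ, ∑ l, p l = N → ∑ l, f (p l) = 0)
    (h : ∀ (p : S → ℤ) (x : S → E), (∀ l, x l ∈ part (p l)) → ∑ l, p l ≠ N → Φ x = 0) :
    Kills (diag hi f) Φ := by
  classical
  let D : MultilinearMap ℂ (fun _ : S => E) ℂ :=
    ∑ j, Φ.compLinearMap fun i => if i = j then diag hi f else LinearMap.id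
  have hD : ∀ v, D v = ∑ j, Φ (update v j (diag hi f (v j))) := by
    intro v
    rw [_root_.sum_apply]
    refine sum_congr rfl fun j _ => ?_
    rw [MultilinearMap.compLinearMap_apply]
    congr 1
    funext i
    by_cases hi' : i = j
    · subst hi'
      rw [if_pos rfl, update_self]
    · rw [if_neg hi', update_of_ne hi', LinearMap.id_apply]
  have key : D = 0 := by
    refine multi_ext hi fun p x hx => ?_
    rw [hD, MultilinearMap.zero_apply]
    have h3 : ∀ j, Φ (update x j (diag hi f (x j))) = f (p j) * Φ x := by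
      intro j
      rw [diag_apply hi f (hx j), MultilinearMap.map_update_smul, update_eq_self, smul_eq_mul]
    rw [sum_congr rfl fun j _ => h3 j, ← sum_mul]
    by_cases h0 : ∑ l, p l = N
    · rw [hf p h0, zero_mul]
    · rw [h p x hx h0, mul_zero]
  intro v
  rw [← hD, key, MultilinearMap.zero_apply]

theorem type_of_kills {Φ : MultilinearMap ℂ (fun _ : S => E) ℂ} {f : ℤ → ℂ}
    (h : Kills (diag hi f) Φ) (p : S → ℤ) (x : S → E) (hx : ∀ l, x l ∈ part (p l))
    (hp : ∑ l, f (p l) ≠ 0) : Φ x = 0 := by
  classical
  have h1 := h x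
  have h3 : ∀ j, Φ (update x j (diag hi f (x j))) = f (p j) * Φ x := by
    intro j
    rw [diag_apply hi f (hx j), MultilinearMap.map_update_smul, update_eq_self, smul_eq_mul]
  rw [sum_congr rfl fun j _ => h3 j, ← sum_mul] at h1
  exact (mul_eq_zero.1 h1).resolve_left hp

/-- Such a form is invariant under the corresponding diagonal operators. -/
theorem inv_of_type {Φ : MultilinearMap ℂ (fun _ : S => E) ℂ} {N : ℤ} {f : ℤ → ℂ}
    (hf : ∀ p : S → ℤ, ∑ l, p l = N → ∏ l, f (p l) = 1)
    (h : ∀ (p : S → ℤ) (x : S → E), (∀ l, x l ∈ part (p l)) → ∑ l, p l ≠ N → Φ x = 0)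
    (v : S → E) : Φ (fun l => diag hi f (v l)) = Φ v := by
  have key : Φ.compLinearMap (fun _ => diag hi f) = Φ := by
    refine multi_ext hi fun p x hx => ?_
    rw [MultilinearMap.compLinearMap_apply]
    have h1 : (fun l => diag hi f (x l)) = fun l => f (p l) • x l := by
      funext l
      exact diag_apply hi f (hx l)
    rw [h1, MultilinearMap.map_smul_univ, smul_eq_mul]
    by_cases h0 : ∑ l, p l = N
    · rw [hf p h0, one_mul]
    · rw [h p x hx h0, mul_zero]
  exact congrArg (fun F : MultilinearMap ℂ (fun _ : S => E) ℂ => F v) key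

/-- The projection to the part of degree `q`. -/
def pr (q : ℤ) : End ℂ E := diag hi fun r => if r = q then 1 else 0

theorem pr_mem (q : ℤ) (y : E) : pr hi q y ∈ part q := by
  refine parts_induction (C := fun y => pr hi q y ∈ part q) hi y (fun r y hy => ?_) ?_
    fun y z hy hz => ?_
  · rw [pr, diag_apply hi _ hy]
    by_cases h : r = q
    · subst h
      exact Submodule.smul_mem _ _ hy
    · rw [if_neg h, zero_smul]
      exact Submodule.zero_mem _
  · rw [map_zero]
    exact Submodule.zero_mem _
  · rw [map_add]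
    exact Submodule.add_mem _ hy hz

theorem exists_sum (y : E) : ∃ s : Finset ℤ, y = ∑ q ∈ s, pr hi q y := by
  have h3 : ∃ s : Finset ℤ, ∀ t : Finset ℤ, s ⊆ t → y = ∑ q ∈ t, pr hi q y := by
    refine parts_induction (C := fun y => ∃ s : Finset ℤ, ∀ t : Finset ℤ, s ⊆ t →
      y = ∑ q ∈ t, pr hi q y) hi y (fun q y hy => ?_) ?_ fun y z hy hz => ?_
    · refine ⟨{q}, fun t ht => ?_⟩
      rw [Finset.sum_eq_single_of_mem q (ht (Finset.mem_singleton_self q))]
      · rw [pr, diag_apply hi _ hy, if_pos rfl, one_smul]
      · intro r _ hr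
        rw [pr, diag_apply hi _ hy, if_neg (fun h => hr h.symm), zero_smul]
    · exact ⟨∅, fun t _ => by simp⟩
    · obtain ⟨s, hs⟩ := hy
      obtain ⟨s', hs'⟩ := hz
      refine ⟨s ∪ s', fun t ht => ?_⟩
      simp only [map_add]
      rw [Finset.sum_add_distrib, ← hs t (Finset.union_subset_left ht),
        ← hs' t (Finset.union_subset_right ht)]
  obtain ⟨s, hs⟩ := h3
  exact ⟨s, hs s (Finset.Subset.refl s)⟩

/-- Eigenvectors of a diagonal operator with distinct eigenvalues. -/
theorem mem_part_of_eig {f : ℤ → ℂ} (hf : Injective f) {p : ℤ} {x : E}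
    (hx : diag hi f x = f p • x) : x ∈ part p := by
  -- the projections
  have h1 : ∀ q, q ≠ p → diag hi (fun r => if r = q then 1 else 0) x = 0 := by
    intro q hq
    have h2 : diag hi (fun r => if r = q then 1 else 0) (diag hi f x) =
        f q • diag hi (fun r => if r = q then 1 else 0) x := by
      rw [← End.mul_apply, diag_mul]
      have h3 : (diag hi fun r => (if r = q then (1 : ℂ) else 0) * f r) =
          f q • diag hi (fun r => if r = q then 1 else 0) := by
        refine ext_parts hi fun r y hy => ?_
        rw [diag_apply hi _ hy, LinearMap.smul_apply, diag_apply hi _ hy, smul_smul]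
        congr 1
        by_cases h : r = q
        · subst h
          rw [if_pos rfl, mul_comm]
        · rw [if_neg h, zero_mul, mul_zero]
      rw [h3, LinearMap.smul_apply]
    rw [hx, map_smul, ← sub_eq_zero, ← sub_smul] at h2
    exact (smul_eq_zero.1 h2).resolve_left (sub_ne_zero.2 fun h => hq (hf h).symm)
  have h2 : ∀ y : E, (∀ q, q ≠ p → diag hi (fun r => if r = q then 1 else 0) y = 0) →
      y - diag hi (fun r => if r = p then 1 else 0) y = 0 := by
    intro y hy
    classical
    -- `y` is the sum of its components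
    obtain ⟨s, hs⟩ : ∃ s : Finset ℤ, y = ∑ q ∈ s, diag hi (fun r => if r = q then 1 else 0) y := by
      have h3 : ∀ y : E, ∃ s : Finset ℤ, ∀ t : Finset ℤ, s ⊆ t →
          y = ∑ q ∈ t, diag hi (fun r => if r = q then 1 else 0) y := by
        intro y
        refine parts_induction (C := fun y => ∃ s : Finset ℤ, ∀ t : Finset ℤ, s ⊆ t →
          y = ∑ q ∈ t, diag hi (fun r => if r = q then 1 else 0) y) hi y
          (fun q y hy => ?_) ?_ fun y z hy hz => ?_
        · refine ⟨{q}, fun t ht => ?_⟩
          rw [Finset.sum_eq_single_of_mem q (ht (Finset.mem_singleton_self q))]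
          · rw [diag_apply hi _ hy, if_pos rfl, one_smul]
          · intro r _ hr
            rw [diag_apply hi _ hy, if_neg (fun h => hr h.symm), zero_smul]
        · exact ⟨∅, fun t _ => by simp⟩
        · obtain ⟨s, hs⟩ := hy
          obtain ⟨s', hs'⟩ := hz
          refine ⟨s ∪ s', fun t ht => ?_⟩
          simp only [map_add]
          rw [Finset.sum_add_distrib, ← hs t (Finset.union_subset_left ht),
            ← hs' t (Finset.union_subset_right ht)]
      obtain ⟨s, hs⟩ := h3 y
      exact ⟨s, hs s (Finset.Subset.refl s)⟩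
    by_cases hp : p ∈ s
    · rw [Finset.sum_eq_single_of_mem p hp (fun q _ hq => hy q hq)] at hs
      rw [sub_eq_zero]
      exact hs
    · have h4 : y = 0 := by
        rw [hs]
        exact Finset.sum_eq_zero fun q hq => hy q (fun h => hp (h ▸ hq))
      rw [h4, map_zero, sub_zero]
  have h3 := sub_eq_zero.1 (h2 x h1)
  have h4 : ∀ y : E, diag hi (fun r => if r = p then 1 else 0) y ∈ part p := by
    intro y
    refine parts_induction (C := fun y => diag hi (fun r => if r = p then 1 else 0) y ∈ part p)
      hi y (fun q y hy => ?_) ?_ fun y z hy hz => ?_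
    · rw [diag_apply hi _ hy]
      by_cases h : q = p
      · subst h
        exact Submodule.smul_mem _ _ hy
      · rw [if_neg h, zero_smul]
        exact Submodule.zero_mem _
    · rw [map_zero]
      exact Submodule.zero_mem _
    · rw [map_add]
      exact Submodule.add_mem _ hy hz
  rw [h3]
  exact h4 x

end

end Pool.Agent.K1H15.HG
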