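import Mathlib
import Pool.Agent.K1H15.HG.Diag
import Pool.Agent.W516.DRDual
import Pool.Agent.W516.DRMain
import Pool.Agent.H204R3.GP.TateG

/-!
# The positive hermitian form of a polarized Hodge structure
-/

set_option linter.unusedSectionVars false

namespace Pool.Agent.K1H15.HG

open Module Finset Function TensorProduct Pool.Agent.H204R3.SP

noncomputable section

/-- The trace of `X X'` vanishes only if `X'` does, if `X'` is the adjoint of `X`. -/
theorem zero_of_trace {E : Type} [AddCommGroup E] [Module ℂ E] [FiniteDimensional ℂ E]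
    (cd : InnerProductSpace.Core ℂ E) {X X' : End ℂ E}
    (h : ∀ x y, cd.inner x (X y) = cd.inner (X' x) y)
    (ht : LinearMap.trace ℂ E (X * X') = 0) : X' = 0 := by
  letI : NormedAddCommGroup E := cd.toNormedAddCommGroup
  letI : InnerProductSpace ℂ E := InnerProductSpace.ofCore cd.toCore
  let b := stdOrthonormalBasis ℂ E
  rw [LinearMap.trace_eq_sum_inner _ b] at ht
  have h1 : ∀ i, (inner ℂ (b i) ((X * X') (b i)) : ℂ) = inner ℂ (X' (b i)) (X' (b i)) :=
    fun i => h (b i) (X' (b i))
  rw [Finset.sum_congr rfl fun i _ => h1 i] at ht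
  have h2 : ∑ i, RCLike.re (inner ℂ (X' (b i)) (X' (b i)) : ℂ) = 0 := by
    rw [← map_sum, ht, map_zero]
  have h3 : ∀ i, RCLike.re (inner ℂ (X' (b i)) (X' (b i)) : ℂ) = 0 := by
    intro i
    exact (Finset.sum_eq_zero_iff_of_nonneg fun i _ => inner_self_nonneg).1 h2 i (Finset.mem_univ i)
  have h4 : ∀ i, X' (b i) = 0 := fun i => by
    have h5 := h3 i
    rw [inner_self_eq_norm_sq, sq_eq_zero_iff, norm_eq_zero] at h5
    exact h5
  refine b.toBasis.ext fun i => ?_
  rw [OrthonormalBasis.coe_toBasis, h4, LinearMap.zero_apply]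

section

variable {W : Type} [AddCommGroup W] [Module ℚ W]

theorem conj_tmul (a : ℂ) (u : W) :
    conj W (a ⊗ₜ[ℚ] u) = (starRingEnd ℂ a) ⊗ₜ[ℚ] u := rfl

theorem conj_smul (c : ℂ) (x : ℂ ⊗[ℚ] W) : conj W (c • x) = (starRingEnd ℂ c) • conj W x := by
  induction x with
  | zero => simp only [smul_zero, map_zero]
  | add x y hx hy => rw [smul_add, map_add, hx, hy, map_add, smul_add]
  | tmul a u => rw [smul_tmul', smul_eq_mul, conj_tmul, conj_tmul, map_mul, smul_tmul', smul_eq_mul]

theorem conj_conj (x : ℂ ⊗[ℚ] W) : conj W (conj W x) = x := by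
  induction x with
  | zero => simp only [map_zero]
  | add x y hx hy => rw [map_add, map_add, hx, hy]
  | tmul a u => rw [conj_tmul, conj_tmul, Complex.conj_conj]

theorem conj_base (X : End ℚ W) (x : ℂ ⊗[ℚ] W) :
    X.baseChange ℂ (conj W x) = conj W (X.baseChange ℂ x) := by
  induction x with
  | zero => simp only [map_zero]
  | add x y hx hy => rw [map_add, map_add, hx, hy, map_add, map_add]
  | tmul a u => rw [conj_tmul, LinearMap.baseChange_tmul, LinearMap.baseChange_tmul, conj_tmul]

variable [FiniteDimensional ℚ W] {w : ℤ} (H : PolarizedHodge W w)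

theorem formC_tmul (a c : ℂ) (u v : W) :
    H.formC (a ⊗ₜ[ℚ] u) (c ⊗ₜ[ℚ] v) = a * c * ((H.form u v : ℚ) : ℂ) := by
  have h1 : a ⊗ₜ[ℚ] u = a • ((1 : ℂ) ⊗ₜ[ℚ] u) := by rw [smul_tmul', smul_eq_mul, mul_one]
  have h2 : c ⊗ₜ[ℚ] v = c • ((1 : ℂ) ⊗ₜ[ℚ] v) := by rw [smul_tmul', smul_eq_mul, mul_one]
  rw [h1, h2]
  simp only [map_smul, LinearMap.smul_apply, H.formC_one, smul_eq_mul]
  ring

theorem formC_conj (x y : ℂ ⊗[ℚ] W) :
    H.formC (conj W x) (conj W y) = starRingEnd ℂ (H.formC x y) := by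
  induction x with
  | zero => simp only [map_zero, LinearMap.zero_apply]
  | add x x' hx hx' => rw [map_add, map_add, LinearMap.add_apply, hx, hx', map_add,
      LinearMap.add_apply, map_add]
  | tmul a u =>
    induction y with
    | zero => simp only [map_zero]
    | add y y' hy hy' => rw [map_add, map_add, hy, hy', map_add, map_add]
    | tmul c v =>
      rw [conj_tmul, conj_tmul, formC_tmul, formC_tmul, map_mul, map_mul]
      congr 1
      exact (Complex.conj_ofReal _).symm

/-- The sign of the weight. -/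
def eps (w : ℤ) : ℂ := (-1) ^ w

theorem eps_sq (w : ℤ) : eps w * eps w = 1 := by
  unfold eps
  rw [← zpow_add₀ (by norm_num : (-1 : ℂ) ≠ 0)]
  exact Even.neg_one_zpow ⟨w, rfl⟩

theorem formC_symm (x y : ℂ ⊗[ℚ] W) : H.formC y x = eps w * H.formC x y := by
  induction x with
  | zero => simp only [map_zero, LinearMap.zero_apply, mul_zero]
  | add x x' hx hx' => rw [map_add, hx, hx', map_add, LinearMap.add_apply, mul_add]
  | tmul a u =>
    induction y with
    | zero => simp only [map_zero, LinearMap.zero_apply, mul_zero]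
    | add y y' hy hy' => rw [map_add, LinearMap.add_apply, hy, hy', map_add, mul_add]
    | tmul c v =>
      rw [formC_tmul, formC_tmul, H.symm u v]
      unfold eps
      push_cast
      ring

/-- The Weil operator. -/
def CC : End ℂ (ℂ ⊗[ℚ] W) := diag H.internal fun p => Complex.I ^ (2 * p - w)

/-- The inverse of the Weil operator. -/
def CI : End ℂ (ℂ ⊗[ℚ] W) := diag H.internal fun p => Complex.I ^ (w - 2 * p)

theorem CC_CI : CC H * CI H = 1 := by
  rw [CC, CI, diag_mul, ← diag_one H.internal]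
  congr 1
  funext p
  rw [← zpow_add₀ Complex.I_ne_zero]
  have h : 2 * p - w + (w - 2 * p) = 0 := by ring
  rw [h, zpow_zero]

theorem CI_CC : CI H * CC H = 1 := by
  rw [CC, CI, diag_mul, ← diag_one H.internal]
  congr 1
  funext p
  rw [← zpow_add₀ Complex.I_ne_zero]
  have h : w - 2 * p + (2 * p - w) = 0 := by ring
  rw [h, zpow_zero]

theorem I_even (n : ℤ) : Complex.I ^ (2 * n) = (-1) ^ n := by
  rw [zpow_mul]
  norm_cast
  rw [Complex.I_sq]
  norm_cast

theorem CC_CC : CC H * CC H = eps w • (1 : End ℂ (ℂ ⊗[ℚ] W)) := by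
  rw [CC, diag_mul]
  refine ext_parts H.internal fun p x hx => ?_
  rw [diag_apply _ _ hx, LinearMap.smul_apply, End.one_apply]
  congr 1
  rw [← zpow_add₀ Complex.I_ne_zero]
  have h : 2 * p - w + (2 * p - w) = 2 * (2 * p - w) := by ring
  rw [h, I_even]
  unfold eps
  have h2 : 2 * p - w = 2 * (p - w) + w := by ring
  rw [h2, zpow_add₀ (by norm_num : (-1 : ℂ) ≠ 0), Even.neg_one_zpow (even_two_mul _), one_mul]

theorem CC_conj (x : ℂ ⊗[ℚ] W) : CC H (conj W x) = conj W (CC H x) := by
  refine parts_induction (C := fun x => CC H (conj W x) = conj W (CC H x)) H.internal x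
    (fun p x hx => ?_) ?_ fun x y hx hy => ?_
  · rw [CC, diag_apply _ _ hx, diag_apply _ _ (H.conj_mem p x hx), conj_smul]
    congr 1
    rw [map_zpow₀, Complex.conj_I, ← Complex.inv_I, inv_zpow']
    congr 1
    ring
  · simp only [map_zero]
  · simp only [map_add]
    rw [hx, hy]

theorem CI_conj (x : ℂ ⊗[ℚ] W) : CI H (conj W x) = conj W (CI H x) := by
  have h1 : ∀ y, CI H (CC H y) = y := fun y => by
    rw [← End.mul_apply, CI_CC, End.one_apply]
  have h2 : ∀ y, CC H (CI H y) = y := fun y => by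
    rw [← End.mul_apply, CC_CI, End.one_apply]
  conv_lhs => rw [← h2 x, ← CC_conj, h1]

/-- The Weil operator preserves the polarization. -/
theorem formC_CC (x y : ℂ ⊗[ℚ] W) : H.formC (CC H x) (CC H y) = H.formC x y := by
  have key : (H.formC.compl₁₂ (CC H) (CC H)) = H.formC := by
    refine ext_parts H.internal fun p x hx => ?_
    refine ext_parts H.internal fun q y hy => ?_
    rw [LinearMap.compl₁₂_apply, CC, diag_apply _ _ hx, diag_apply _ _ hy]
    simp only [map_smul, LinearMap.smul_apply, smul_eq_mul]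
    rw [← mul_assoc]
    by_cases h : p + q = w
    · rw [← zpow_add₀ Complex.I_ne_zero]
      have h1 : 2 * q - w + (2 * p - w) = 0 := by rw [← h]; ring
      rw [h1, zpow_zero, one_mul]
    · rw [H.orth p q h x hx y hy, mul_zero]
  exact congrArg (fun F : (ℂ ⊗[ℚ] W) →ₗ[ℂ] (ℂ ⊗[ℚ] W) →ₗ[ℂ] ℂ => F x y) key

theorem herm_orth {p q : ℤ} (h : q ≠ p) {x y : ℂ ⊗[ℚ] W} (hx : x ∈ H.part p)
    (hy : y ∈ H.part q) : H.formC (CC H y) (conj W x) = 0 := by
  rw [CC, diag_apply _ _ hy, map_smul, LinearMap.smul_apply,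
    H.orth q (w - p) (fun h1 => h (by linarith)) y hy _ (H.conj_mem p x hx), smul_zero]

theorem herm_pos {p : ℤ} {x : ℂ ⊗[ℚ] W} (hx : x ∈ H.part p) (h0 : x ≠ 0) :
    0 < (H.formC (CC H x) (conj W x)).re := by
  rw [CC, diag_apply _ _ hx, map_smul, LinearMap.smul_apply, smul_eq_mul]
  exact H.pos p x hx h0

theorem herm_nonneg {p : ℤ} {x : ℂ ⊗[ℚ] W} (hx : x ∈ H.part p) :
    0 ≤ (H.formC (CC H x) (conj W x)).re := by
  by_cases h0 : x = 0
  · rw [h0, map_zero, map_zero, LinearMap.zero_apply, Complex.zero_re]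
  · exact (herm_pos H hx h0).le

theorem herm_sum (x : ℂ ⊗[ℚ] W) : ∃ s : Finset ℤ, x = ∑ q ∈ s, pr H.internal q x ∧
    H.formC (CC H x) (conj W x) = ∑ q ∈ s, H.formC (CC H (pr H.internal q x))
      (conj W (pr H.internal q x)) := by
  obtain ⟨s, hs⟩ := exists_sum H.internal x
  refine ⟨s, hs, ?_⟩
  have h1 : ∀ y, H.formC (CC H y) (conj W x) =
      ∑ q ∈ s, H.formC (CC H y) (conj W (pr H.internal q x)) := by
    intro y
    conv_lhs => rw [hs]
    rw [map_sum, map_sum]
  have h2 : ∀ z, H.formC (CC H x) z = ∑ q ∈ s, H.formC (CC H (pr H.internal q x)) z := by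
    intro z
    conv_lhs => rw [hs]
    rw [map_sum, map_sum, LinearMap.sum_apply]
  rw [h2]
  refine Finset.sum_congr rfl fun q hq => ?_
  rw [h1, Finset.sum_eq_single_of_mem q hq]
  intro r _ hr
  exact herm_orth H (fun h => hr h.symm) (pr_mem H.internal r x) (pr_mem H.internal q x)

/-- The positive hermitian form. -/
def core : InnerProductSpace.Core ℂ (ℂ ⊗[ℚ] W) where
  inner x y := H.formC (CC H y) (conj W x)
  conj_inner_symm x y := by
    have h1 : ∀ y, CC H (CC H y) = eps w • y := fun y => by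
      rw [← End.mul_apply, CC_CC, LinearMap.smul_apply, End.one_apply]
    rw [← formC_conj, conj_conj, ← CC_conj, formC_symm, ← formC_CC, h1, map_smul, smul_eq_mul,
      ← mul_assoc, eps_sq, one_mul]
  re_inner_nonneg x := by
    obtain ⟨s, -, h⟩ := herm_sum H x
    rw [h, map_sum]
    exact Finset.sum_nonneg fun q _ => herm_nonneg H (pr_mem H.internal q x)
  add_left x y z := by
    rw [map_add, map_add]
  smul_left x y r := by
    rw [conj_smul, map_smul, smul_eq_mul]
  definite x h := by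
    obtain ⟨s, hs, h1⟩ := herm_sum H x
    rw [h1] at h
    have h2 : ∑ q ∈ s, (H.formC (CC H (pr H.internal q x))
        (conj W (pr H.internal q x))).re = 0 := by
      rw [← Complex.re_sum, h, Complex.zero_re]
    have h3 := (Finset.sum_eq_zero_iff_of_nonneg fun q _ =>
      herm_nonneg H (pr_mem H.internal q x)).1 h2
    rw [hs]
    refine Finset.sum_eq_zero fun q hq => ?_
    by_contra h0
    exact absurd (h3 q hq) (herm_pos H (pr_mem H.internal q x) h0).ne'

end

end

end Pool.Agent.K1H15.HG
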