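import Mathlib
import Pool.Agent.K1H15.HG.Pos
import Pool.Agent.K1H15.MT.Desc

/-!
# The Lie algebra of the Hodge classes of a polarized Hodge structure
-/

set_option linter.unusedSectionVars false

namespace Pool.Agent.K1H15.HG

open Module Finset Function TensorProduct Pool.Agent.H204R3.SP Pool.Agent.H204R3.GP
  Pool.Agent.W516.DR Pool.Agent.K1H15.MT

open Pool.Agent.W516.KC (IsSkew)

noncomputable section

variable {W : Type} [AddCommGroup W] [Module ℚ W] [FiniteDimensional ℚ W] {w : ℤ}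
  (H : PolarizedHodge W w)

/-- The complex extension of a rational form. -/
def cx {m : ℕ} (φ : Form W m) : MultilinearMap ℂ (fun _ : Fin m × Fin 2 => ℂ ⊗[ℚ] W) ℂ :=
  bcm (Ω := ℂ) (Module.finBasis ℚ W) φ

theorem cx_one {m : ℕ} (φ : Form W m) (v : Fin m × Fin 2 → W) :
    cx φ (fun l => (1 : ℂ) ⊗ₜ[ℚ] v l) = ((φ v : ℚ) : ℂ) := bcm_one _ φ v

theorem cx_unique {m : ℕ} {φ : Form W m}
    {Φ : MultilinearMap ℂ (fun _ : Fin m × Fin 2 => ℂ ⊗[ℚ] W) ℂ}
    (h : ∀ v, Φ (fun l => (1 : ℂ) ⊗ₜ[ℚ] v l) = ((φ v : ℚ) : ℂ)) : Φ = cx φ := by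
  refine Module.Basis.ext_multilinear
    (fun _ => (Module.finBasis ℚ W).baseChange ℂ) fun I => ?_
  have h1 : (fun l => (Module.finBasis ℚ W).baseChange ℂ (I l)) =
      fun l => (1 : ℂ) ⊗ₜ[ℚ] (Module.finBasis ℚ W) (I l) := by
    funext l
    rw [Basis.baseChange_apply]
  rw [h1, h, cx_one]

theorem isHodge_iff {m : ℕ} {φ : Form W m} : H.IsHodge m φ ↔
    ∀ (p : Fin m × Fin 2 → ℤ) (x : Fin m × Fin 2 → ℂ ⊗[ℚ] W), (∀ l, x l ∈ H.part (p l)) →
      ∑ l, p l ≠ m * w → cx φ x = 0 := by
  constructor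
  · rintro ⟨Φ, h1, h2⟩
    rw [← cx_unique h1]
    exact h2
  · intro h
    exact ⟨cx φ, cx_one φ, h⟩

/-- The operator which is `2p - w` on the part of degree `p`. -/
def DD : End ℂ (ℂ ⊗[ℚ] W) := diag H.internal fun p => ((2 * p - w : ℤ) : ℂ)

theorem sum_deg {m : ℕ} (p : Fin m × Fin 2 → ℤ) :
    ∑ l, (2 * p l - w) = 2 * (∑ l, p l - m * w) := by
  rw [Finset.sum_sub_distrib, ← Finset.mul_sum, Finset.sum_const, Finset.card_univ,
    Fintype.card_prod, Fintype.card_fin, Fintype.card_fin, nsmul_eq_mul]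
  push_cast
  ring

theorem isHodge_iff_kills {m : ℕ} {φ : Form W m} : H.IsHodge m φ ↔ Kills (DD H) (cx φ) := by
  rw [isHodge_iff]
  constructor
  · intro h
    refine kills_of_type H.internal (N := m * w) (fun p hp => ?_) h
    rw [← Int.cast_sum, sum_deg, hp, sub_self, mul_zero, Int.cast_zero]
  · intro h p x hx hp
    refine type_of_kills H.internal h p x hx ?_
    rw [← Int.cast_sum, sum_deg, Int.cast_ne_zero]
    exact mul_ne_zero two_ne_zero (sub_ne_zero.2 hp)

/-- The Lie algebra of the endomorphisms which kill all Hodge classes. -/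
def hl : Submodule ℚ (End ℚ W) where
  carrier := {X | ∀ m (φ : Form W m), H.IsHodge m φ → Kills X φ}
  zero_mem' := by
    intro m φ _ v
    refine Finset.sum_eq_zero fun k _ => ?_
    rw [LinearMap.zero_apply]
    exact φ.map_coord_zero k (Function.update_self _ _ _)
  add_mem' := by
    intro X Y hX hY m φ hφ v
    have h1 : ∀ k, φ (update v k ((X + Y) (v k))) =
        φ (update v k (X (v k))) + φ (update v k (Y (v k))) := fun k => by
      rw [LinearMap.add_apply, MultilinearMap.map_update_add]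
    rw [Finset.sum_congr rfl fun k _ => h1 k, Finset.sum_add_distrib, hX m φ hφ v, hY m φ hφ v,
      add_zero]
  smul_mem' := by
    intro c X hX m φ hφ v
    have h1 : ∀ k, φ (update v k ((c • X) (v k))) = c * φ (update v k (X (v k))) := fun k => by
      rw [LinearMap.smul_apply, MultilinearMap.map_update_smul, smul_eq_mul]
    rw [Finset.sum_congr rfl fun k _ => h1 k, ← Finset.mul_sum, hX m φ hφ v, mul_zero]

theorem hl_bracket {X Y : End ℚ W} (hX : X ∈ hl H) (hY : Y ∈ hl H) : X * Y - Y * X ∈ hl H :=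
  fun m φ hφ => kills_bracket (hX m φ hφ) (hY m φ hφ)

/-- The components of an operator which kills all Hodge classes. -/
theorem cmp_mem {Z : End ℂ (ℂ ⊗[ℚ] W)} (h : ∀ m (φ : Form W m), H.IsHodge m φ → Kills Z (cx φ))
    (lam : ℂ →ₗ[ℚ] ℚ) : cmpE lam Z ∈ hl H :=
  fun m φ hφ => (kills_bcm_iff (Module.finBasis ℚ W) φ Z).1 (h m φ hφ) lam

theorem cmp_DD (lam : ℂ →ₗ[ℚ] ℚ) : cmpE lam (DD H) ∈ hl H :=
  cmp_mem H (fun _ _ hφ => (isHodge_iff_kills H).1 hφ) lam

/-- **The forms killed by the Lie algebra are Hodge classes.** -/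
theorem hodge_of_kills {m : ℕ} {φ : Form W m} (h : ∀ X ∈ hl H, Kills X φ) : H.IsHodge m φ := by
  rw [isHodge_iff_kills]
  exact (kills_bcm_iff (Module.finBasis ℚ W) φ (DD H)).2 fun lam => h _ (cmp_DD H lam)

theorem kills_cx {m : ℕ} {φ : Form W m} {X : End ℚ W} (h : Kills X φ) :
    Kills (X.baseChange ℂ) (cx φ) := by
  refine (kills_bcm_iff (Module.finBasis ℚ W) φ _).2 fun lam => ?_
  have h1 : cmpE lam (X.baseChange ℂ) = lam 1 • X := by
    refine LinearMap.ext fun u => ?_
    rw [cmpE_apply, LinearMap.baseChange_tmul, cmp_tmul, LinearMap.smul_apply]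
  rw [h1]
  intro v
  have h2 : ∀ k, φ (update v k ((lam 1 • X) (v k))) = lam 1 * φ (update v k (X (v k))) :=
    fun k => by rw [LinearMap.smul_apply, MultilinearMap.map_update_smul, smul_eq_mul]
  rw [Finset.sum_congr rfl fun k _ => h2 k, ← Finset.mul_sum, h v, mul_zero]

/-- Hodge classes are invariant under the Weil operator. -/
theorem cx_CC {m : ℕ} {φ : Form W m} (hφ : H.IsHodge m φ) (v : Fin m × Fin 2 → ℂ ⊗[ℚ] W) :
    cx φ (fun l => CC H (v l)) = cx φ v := by
  refine inv_of_type H.internal (N := m * w) (fun p hp => ?_) ((isHodge_iff H).1 hφ) v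
  have h1 : ∀ s : Finset (Fin m × Fin 2), ∏ l ∈ s, Complex.I ^ (2 * p l - w) =
      Complex.I ^ (∑ l ∈ s, (2 * p l - w)) := by
    intro s
    induction s using Finset.induction_on with
    | empty => simp
    | insert a s ha ih =>
      rw [Finset.prod_insert ha, Finset.sum_insert ha, ih, zpow_add₀ Complex.I_ne_zero]
  rw [h1, sum_deg, hp, sub_self, mul_zero, zpow_zero]

/-- Conjugation by the Weil operator preserves the Lie algebra. -/
theorem kills_conj {X : End ℚ W} (hX : X ∈ hl H) {m : ℕ} {φ : Form W m} (hφ : H.IsHodge m φ) :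
    Kills (CC H * X.baseChange ℂ * CI H) (cx φ) := by
  intro v
  have h1 : ∀ y, CC H (CI H y) = y := fun y => by
    rw [← End.mul_apply, CC_CI, End.one_apply]
  have h2 := kills_cx (hX m φ hφ) fun l => CI H (v l)
  rw [← h2]
  refine Finset.sum_congr rfl fun j _ => ?_
  rw [← cx_CC H hφ (update (fun l => CI H (v l)) j _)]
  congr 1
  funext l
  by_cases h : l = j
  · subst h
    rw [update_self, update_self]
    rfl
  · rw [update_of_ne h, update_of_ne h, h1]

/-! ### Bilinear Hodge classes -/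

theorem one_hodge {B : W →ₗ[ℚ] W →ₗ[ℚ] ℚ} {BC : (ℂ ⊗[ℚ] W) →ₗ[ℂ] (ℂ ⊗[ℚ] W) →ₗ[ℂ] ℂ}
    (h1 : ∀ u v, BC ((1 : ℂ) ⊗ₜ[ℚ] u) ((1 : ℂ) ⊗ₜ[ℚ] v) = ((B u v : ℚ) : ℂ))
    (h2 : ∀ p q, p + q ≠ w → ∀ x ∈ H.part p, ∀ y ∈ H.part q, BC x y = 0) :
    H.IsHodge 1 (one2 B) := by
  refine ⟨one2 BC, fun v => ?_, fun p x hx hp => ?_⟩
  · rw [one2_apply, one2_apply, h1]
  · rw [one2_apply]
    refine h2 _ _ (fun h => hp ?_) _ (hx (0, 0)) _ (hx (0, 1))
    rw [Fintype.sum_prod_type, Fin.sum_univ_one, Fin.sum_univ_two, h]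
    simp

theorem form_hodge : H.IsHodge 1 (one2 H.form) := one_hodge H H.formC_one H.orth

theorem hl_skew {X : End ℚ W} (hX : X ∈ hl H) : IsSkew H.form X :=
  (kills_one2 H.form X).1 (hX 1 _ (form_hodge H))

theorem skew_cx {X : End ℚ W} (hX : IsSkew H.form X) (x y : ℂ ⊗[ℚ] W) :
    H.formC (X.baseChange ℂ x) y + H.formC x (X.baseChange ℂ y) = 0 := by
  induction x with
  | zero => simp only [map_zero, LinearMap.zero_apply, add_zero]
  | add x x' hx hx' =>
    rw [map_add, map_add, map_add, LinearMap.add_apply, LinearMap.add_apply]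
    linear_combination hx + hx'
  | tmul a u =>
    induction y with
    | zero => simp only [map_zero, add_zero]
    | add y y' hy hy' =>
      rw [map_add, map_add, map_add]
      linear_combination hy + hy'
    | tmul c v =>
      rw [LinearMap.baseChange_tmul, LinearMap.baseChange_tmul, formC_tmul, formC_tmul, ← mul_add,
        ← Rat.cast_add, hX, Rat.cast_zero, mul_zero]

/-- **The trace form of the Lie algebra is nondegenerate.** -/
theorem hl_nondeg : Pool.Agent.W516.KC2.TraceNondeg (hl H) := by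
  intro X hX h
  have hsk := skew_cx H (hl_skew H hX)
  set X' : End ℂ (ℂ ⊗[ℚ] W) := -(CC H * X.baseChange ℂ * CI H) with hX'
  have h0 : X' = 0 := by
    refine zero_of_trace (core H) (X := X.baseChange ℂ) (fun x y => ?_) ?_
    · change H.formC (CC H (X.baseChange ℂ y)) (conj W x) = H.formC (CC H y) (conj W (X' x))
      have h1 : conj W (X' x) = -(CC H (X.baseChange ℂ (CI H (conj W x)))) := by
        rw [hX', LinearMap.neg_apply, End.mul_apply, End.mul_apply, map_neg, ← CC_conj,
          ← conj_base, ← CI_conj]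
      have h2 : CC H (CI H (conj W x)) = conj W x := by
        rw [← End.mul_apply, CC_CI, End.one_apply]
      rw [h1, map_neg, formC_CC]
      conv_lhs => rw [← h2]
      rw [formC_CC]
      linear_combination hsk y (CI H (conj W x))
    · apply eq_zero_of_dual (k := ℚ)
      intro lam
      rw [LinearMap.trace_mul_comm, trace_cmp', cmpE_mul', LinearMap.trace_mul_comm]
      refine h _ (cmp_mem H (fun m φ hφ => ?_) lam)
      have h3 := kills_conj H hX hφ
      intro v
      have h4 : ∀ k, cx φ (update v k (X' (v k))) =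
          -cx φ (update v k ((CC H * X.baseChange ℂ * CI H) (v k))) := by
        intro k
        rw [hX', LinearMap.neg_apply, MultilinearMap.map_update_neg]
      rw [Finset.sum_congr rfl fun k _ => h4 k, Finset.sum_neg_distrib, h3 v, neg_zero]
  refine bc_inj (Ω := ℂ) ?_
  have h5 : CC H * X.baseChange ℂ * CI H = 0 := by
    rw [hX', neg_eq_zero] at h0
    exact h0
  have h6 : X.baseChange ℂ = CI H * (CC H * X.baseChange ℂ * CI H) * CC H := by
    have h7 : CI H * (CC H * X.baseChange ℂ * CI H) * CC H =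
        (CI H * CC H) * X.baseChange ℂ * (CI H * CC H) := by
      simp only [mul_assoc]
    rw [h7, CI_CC, one_mul, mul_one]
  rw [h6, h5, mul_zero, zero_mul]

/-- The polarization is nondegenerate. -/
theorem form_nondeg (u : W) (hu : ∀ v, H.form u v = 0) : u = 0 := by
  have h1 : ∀ y, H.formC ((1 : ℂ) ⊗ₜ[ℚ] u) y = 0 := by
    intro y
    induction y with
    | zero => rw [map_zero]
    | add y z hy hz => rw [map_add, hy, hz, add_zero]
    | tmul c v => rw [formC_tmul, hu, Rat.cast_zero, mul_zero]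
  have h2 : (1 : ℂ) ⊗ₜ[ℚ] u = 0 := by
    refine (core H).definite _ ?_
    change H.formC (CC H ((1 : ℂ) ⊗ₜ[ℚ] u)) (conj W ((1 : ℂ) ⊗ₜ[ℚ] u)) = 0
    have h3 : conj W ((1 : ℂ) ⊗ₜ[ℚ] u) = CC H (CI H (conj W ((1 : ℂ) ⊗ₜ[ℚ] u))) := by
      rw [← End.mul_apply, CC_CI, End.one_apply]
    rw [h3, formC_CC, h1]
  let b := Module.finBasis ℚ W
  apply b.repr.injective
  ext i
  have h4 := congrArg (fun z => (b.baseChange ℂ).repr z i) h2
  simp only [Basis.baseChange_repr_tmul, map_zero, Finsupp.zero_apply] at h4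
  rw [map_zero, Finsupp.zero_apply]
  rw [Algebra.smul_def, mul_one] at h4
  exact (map_eq_zero_iff _ (algebraMap ℚ ℂ).injective).1 h4

/-! ### Hodge endomorphisms -/

theorem endo_form {P : End ℚ W} (hP : H.IsHodgeEndo P) : H.IsHodge 1 (one2 (H.form.comp P)) := by
  refine one_hodge H (BC := H.formC.comp (P.baseChange ℂ)) (fun u v => ?_) fun p q h x hx y hy => ?_
  · rw [LinearMap.comp_apply, LinearMap.baseChange_tmul, H.formC_one, LinearMap.comp_apply]
  · rw [LinearMap.comp_apply]
    exact H.orth p q h _ (hP p x hx) y hy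

/-- An operator which is skew and kills the form `form(P ·, ·)` commutes with `P`. -/
theorem comm_of_kills {P X : End ℚ W} (hX : IsSkew H.form X)
    (h : Kills X (one2 (H.form.comp P))) : P * X = X * P := by
  refine LinearMap.ext fun u => ?_
  rw [← sub_eq_zero]
  refine form_nondeg H _ fun v => ?_
  have h1 := (kills_one2 _ X).1 h u v
  rw [LinearMap.comp_apply, LinearMap.comp_apply] at h1
  have h2 := hX (P u) v
  rw [map_sub, LinearMap.sub_apply, End.mul_apply, End.mul_apply]
  linear_combination h1 - h2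

/-- The endomorphisms which commute with the Lie algebra are Hodge endomorphisms. -/
theorem endo_of_comm {Z : End ℚ W} (hZ : ∀ X ∈ hl H, X * Z = Z * X) : H.IsHodgeEndo Z := by
  intro p x hx
  have h1 : DD H * Z.baseChange ℂ = Z.baseChange ℂ * DD H :=
    (comm_iff Z (DD H)).1 fun lam => hZ _ (cmp_DD H lam)
  refine mem_part_of_eig H.internal (f := fun p => ((2 * p - w : ℤ) : ℂ)) (fun a b hab => ?_) ?_
  · have h2 : 2 * a - w = 2 * b - w := Int.cast_injective hab
    linarith
  · have h2 := congrArg (fun F : End ℂ (ℂ ⊗[ℚ] W) => F x) h1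
    simp only [End.mul_apply] at h2
    have h3 : DD H x = ((2 * p - w : ℤ) : ℂ) • x := diag_apply _ _ hx
    rw [h3, map_smul] at h2
    exact h2

end

end Pool.Agent.K1H15.HG
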