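import Mathlib
import Pool.Agent.K1H15.HG.Lie
import Pool.Agent.K1H15.P1.Desc

/-!
# When are all Hodge classes Tate classes?
-/

set_option linter.unusedSectionVars false

namespace Pool.Agent.K1H15.HG

open Module Finset Function TensorProduct Pool.Agent.H204R3.SP Pool.Agent.H204R3.GP
  Pool.Agent.W516.DR Pool.Agent.K1H15.MT

open Pool.Agent.W516.KC (IsSkew)

noncomputable section

variable {W : Type} [AddCommGroup W] [Module ℚ W] [FiniteDimensional ℚ W] {w : ℤ}
  (H : PolarizedHodge W w)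

/-! ### Finitely many Hodge classes cut out the Lie algebra in a given space -/

theorem kills_add {κ : Type} [Fintype κ] [DecidableEq κ] {X Y : End ℚ W}
    {φ : MultilinearMap ℚ (fun _ : κ => W) ℚ} (hX : Kills X φ) (hY : Kills Y φ) :
    Kills (X + Y) φ := by
  intro v
  have h1 : ∀ k, φ (update v k ((X + Y) (v k))) =
      φ (update v k (X (v k))) + φ (update v k (Y (v k))) := fun k => by
    rw [LinearMap.add_apply, MultilinearMap.map_update_add]
  rw [Finset.sum_congr rfl fun k _ => h1 k, Finset.sum_add_distrib, hX v, hY v, add_zero]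

theorem kills_smul {κ : Type} [Fintype κ] [DecidableEq κ] (c : ℚ) {X : End ℚ W}
    {φ : MultilinearMap ℚ (fun _ : κ => W) ℚ} (hX : Kills X φ) : Kills (c • X) φ := by
  intro v
  have h1 : ∀ k, φ (update v k ((c • X) (v k))) = c * φ (update v k (X (v k))) := fun k => by
    rw [LinearMap.smul_apply, MultilinearMap.map_update_smul, smul_eq_mul]
  rw [Finset.sum_congr rfl fun k _ => h1 k, ← Finset.mul_sum, hX v, mul_zero]

theorem kills_zero {κ : Type} [Fintype κ] [DecidableEq κ]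
    {φ : MultilinearMap ℚ (fun _ : κ => W) ℚ} : Kills (0 : End ℚ W) φ := by
  intro v
  refine Finset.sum_eq_zero fun k _ => ?_
  rw [LinearMap.zero_apply]
  exact φ.map_coord_zero k (Function.update_self _ _ _)

theorem kills_sub {κ : Type} [Fintype κ] [DecidableEq κ] {X Y : End ℚ W}
    {φ : MultilinearMap ℚ (fun _ : κ => W) ℚ} (hX : Kills X φ) (hY : Kills Y φ) :
    Kills (X - Y) φ := by
  rw [sub_eq_add_neg, ← neg_one_smul ℚ Y]
  exact kills_add hX (kills_smul (-1) hY)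

/-- The elements of `U` killing `φ`. -/
def killIn (U : Submodule ℚ (End ℚ W)) {m : ℕ} (φ : Form W m) : Submodule ℚ (End ℚ W) where
  carrier := {X | X ∈ U ∧ Kills X φ}
  zero_mem' := ⟨U.zero_mem, kills_zero⟩
  add_mem' := fun hX hY => ⟨U.add_mem hX.1 hY.1, kills_add hX.2 hY.2⟩
  smul_mem' := fun c _ hX => ⟨U.smul_mem c hX.1, kills_smul c hX.2⟩

theorem exists_list (n : ℕ) : ∀ U : Submodule ℚ (End ℚ W), finrank ℚ U ≤ n →
    ∃ L : List (Σ m : ℕ, Form W m), (∀ φ ∈ L, H.IsHodge φ.1 φ.2) ∧ L.length ≤ finrank ℚ U ∧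
      ∀ Z ∈ U, (∀ φ ∈ L, Kills Z φ.2) → Z ∈ hl H := by
  induction n with
  | zero =>
    intro U hU
    have h0 : U = ⊥ := Submodule.finrank_eq_zero.1 (Nat.le_zero.1 hU)
    refine ⟨[], fun φ hφ => absurd hφ (List.not_mem_nil), Nat.zero_le _, fun Z hZ _ => ?_⟩
    rw [h0, Submodule.mem_bot] at hZ
    rw [hZ]
    exact Submodule.zero_mem _
  | succ n ih =>
    intro U hU
    by_cases hle : U ≤ hl H
    · exact ⟨[], fun φ hφ => absurd hφ (List.not_mem_nil), Nat.zero_le _, fun Z hZ _ => hle hZ⟩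
    · obtain ⟨Z₀, hZ₀, hne⟩ := SetLike.not_le_iff_exists.1 hle
      have h1 : ∃ m, ∃ φ : Form W m, H.IsHodge m φ ∧ ¬ Kills Z₀ φ := by
        by_contra hcon
        push Not at hcon
        exact hne fun m φ hφ => hcon m φ hφ
      obtain ⟨m, φ, hφ, hk⟩ := h1
      have hlt : killIn U φ < U := by
        refine lt_of_le_of_ne (fun X hX => hX.1) fun h => hk ?_
        rw [← h] at hZ₀
        exact hZ₀.2
      have hlt' := Submodule.finrank_lt_finrank_of_lt hlt
      obtain ⟨L, hL1, hL2, hL3⟩ := ih (killIn U φ) (by omega)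
      refine ⟨⟨m, φ⟩ :: L, ?_, ?_, ?_⟩
      · intro ψ hψ
        rcases List.mem_cons.1 hψ with rfl | hψ
        · exact hφ
        · exact hL1 ψ hψ
      · rw [List.length_cons]
        omega
      · intro Z hZ h
        exact hL3 Z ⟨hZ, h ⟨m, φ⟩ List.mem_cons_self⟩ fun ψ hψ => h ψ (List.mem_cons_of_mem _ hψ)

/-! ### The Galois side -/

section tate

variable {k : Type} [Field k] [CharZero k] {Γ : Type} [Group Γ]
  {ρ : Representation k Γ (k ⊗[ℚ] W)} {χ : Γ →* k}

/-- The extension of a rational form. -/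
def kx (k : Type) [Field k] [CharZero k] {m : ℕ} (φ : Form W m) :
    MultilinearMap k (fun _ : Fin m × Fin 2 => k ⊗[ℚ] W) k :=
  bcm (Ω := k) (Module.finBasis ℚ W) φ

theorem kx_one {m : ℕ} (φ : Form W m) (v : Fin m × Fin 2 → W) :
    kx k φ (fun l => (1 : k) ⊗ₜ[ℚ] v l) = ((φ v : ℚ) : k) := bcm_one _ φ v

theorem kx_unique {m : ℕ} {φ : Form W m}
    {Φ : MultilinearMap k (fun _ : Fin m × Fin 2 => k ⊗[ℚ] W) k}
    (h : ∀ v, Φ (fun l => (1 : k) ⊗ₜ[ℚ] v l) = ((φ v : ℚ) : k)) : Φ = kx k φ := by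
  refine Module.Basis.ext_multilinear
    (fun _ => (Module.finBasis ℚ W).baseChange k) fun I => ?_
  have h1 : (fun l => (Module.finBasis ℚ W).baseChange k (I l)) =
      fun l => (1 : k) ⊗ₜ[ℚ] (Module.finBasis ℚ W) (I l) := by
    funext l
    rw [Basis.baseChange_apply]
  rw [h1, h, kx_one]

theorem tateOver_iff {m : ℕ} {φ : Form W m} : IsTateOver ρ χ φ ↔ IsTate ρ χ m (kx k φ) := by
  constructor
  · rintro ⟨f, h1, h2⟩
    rw [← kx_unique h1]
    exact h2
  · intro h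
    exact ⟨kx k φ, kx_one φ, h⟩

/-- The components of an element of the Lie algebra of the Tate classes kill the Hodge classes which
are Tate classes. -/
theorem cmp_kills {X : End k (k ⊗[ℚ] W)} (hX : X ∈ lieT ρ χ) {m : ℕ} {φ : Form W m}
    (hφ : IsTateOver ρ χ φ) (lam : k →ₗ[ℚ] ℚ) : Kills (cmpE lam X) φ :=
  (kills_bcm_iff (Module.finBasis ℚ W) φ X).1 (hX m _ (tateOver_iff.1 hφ)) lam

end tate

variable {H}

theorem main {ℓ : ℕ} [Fact ℓ.Prime] {Γ : Type} [Group Γ]
    {ρ : Representation ℚ_[ℓ] Γ (ℚ_[ℓ] ⊗[ℚ] W)} {χ : Γ →* ℚ_[ℓ]}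
    (L : List (Σ m : ℕ, Form W m))
    (hL : ∀ Z ∈ H.centralSkew, (∀ φ ∈ L, Kills Z φ.2) → Z ∈ hl H)
    (hL' : ∀ φ ∈ L, H.IsHodge φ.1 φ.2)
    (h1 : ∀ φ : Form W 1, H.IsHodge 1 φ → IsTateOver ρ χ φ)
    (h2 : IsTateOver ρ χ (m := 2) (Pool.Agent.W516.KC2.casimir (hl H) (hl_nondeg H) H.form))
    (h3 : ∀ φ ∈ L, IsTateOver ρ χ φ.2) {m : ℕ} {φ : Form W m} (hφ : H.IsHodge m φ) :
    IsTateOver ρ χ φ := by
  rw [tateOver_iff]
  refine Pool.Agent.K1H15.P1.tate_of_kills fun X hX => ?_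
  refine (kills_bcm_iff (Module.finBasis ℚ W) φ X).2 fun lam => ?_
  -- the component of `X` is in the Lie algebra of the Hodge classes
  suffices h : cmpE lam X ∈ hl H from h m φ hφ
  set Z := cmpE lam X with hZ
  have hsk : IsSkew H.form Z :=
    (kills_one2 H.form Z).1 (cmp_kills hX (h1 _ (form_hodge H)) lam)
  obtain ⟨Y, hY, hYc⟩ := Pool.Agent.W516.KC2.mem_of_kills_casimir (hl H) (hl_nondeg H) H.form
    (fun X hX Y hY => hl_bracket H hX hY) (form_nondeg H) hsk (cmp_kills hX h2 lam)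
  have hcs : Z - Y ∈ H.centralSkew := by
    refine Submodule.subset_span ⟨endo_of_comm H hYc, fun P hP => ?_, fun u v => ?_⟩
    · have e1 := comm_of_kills H hsk (cmp_kills hX (h1 _ (endo_form H hP)) lam)
      have e2 := comm_of_kills H (hl_skew H hY) (hY 1 _ (endo_form H hP))
      rw [mul_sub, sub_mul, e1, e2]
    · have e1 := hsk u v
      have e2 := hl_skew H hY u v
      rw [LinearMap.sub_apply, LinearMap.sub_apply, map_sub, map_sub, LinearMap.sub_apply]
      linear_combination e1 - e2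
  have h4 : Z - Y ∈ hl H := hL _ hcs fun ψ hψ =>
    kills_sub (cmp_kills hX (h3 ψ hψ) lam) (hY _ _ (hL' ψ hψ))
  have h5 : Z = (Z - Y) + Y := by abel
  rw [h5]
  exact Submodule.add_mem _ h4 hY

end

end Pool.Agent.K1H15.HG
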